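import Mathlib

set_option autoImplicit false

namespace Pool.Agent.Results.MP_02ff8d_an.NonUnique

/-- The Legendre-Fenchel conjugate on the real line. -/
noncomputable def conj (f : ℝ → EReal) (y : ℝ) : EReal := ⨆ x : ℝ, ((y * x : ℝ) : EReal) - f x

/-- The equation of the problem on the real line with `E` the identity. -/
def Solves (τ c w β : ℝ) (f : ℝ → EReal) : Prop :=
  ∀ x, f x = (τ : EReal) * conj f (x + c) + ((w * x : ℝ) : EReal) + (β : EReal)

/-- The quadratic solution for `E` the identity. -/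
noncomputable def f0 (τ c w β : ℝ) (x : ℝ) : EReal :=
  ((1 / 2 * (√τ * x * x) + (w + √τ * c) / (1 + √τ) * x +
    (β * (1 + √τ) ^ 2 + 1 / 2 * √τ * ((c - w) * (c - w))) / ((1 + √τ) ^ 2 * (τ + 1)) : ℝ) : EReal)

lemma conj_eq (f : ℝ → ℝ) (y v : ℝ) (h1 : ∀ x, y * x - f x ≤ v) (h2 : ∃ x, y * x - f x = v) :
    conj (fun x => (f x : EReal)) y = v := by
  obtain ⟨x, hx⟩ := h2
  refine le_antisymm (iSup_le fun x => ?_) (le_iSup_of_le x ?_)
  · rw [← EReal.coe_sub]; exact EReal.coe_le_coe_iff.2 (h1 x)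
  · rw [← EReal.coe_sub, hx]

noncomputable def g (x : ℝ) : ℝ := (⌊x⌋ + 1) * x - ⌊x⌋ * (⌊x⌋ + 1) / 2

lemma consec (n : ℤ) : (0 : ℝ) ≤ n * (n - 1) := by
  have : 0 ≤ n * (n - 1) := by rcases le_or_gt n 0 with h | h <;> nlinarith
  exact_mod_cast this

lemma g_sol : Solves 1 1 0 0 fun x => g x := by
  intro y
  rw [conj_eq g (y + 1) (g y) (fun x => ?_) ⟨(⌊y⌋ + 1 : ℤ), by
    simp only [g, Int.floor_intCast]; push_cast; ring⟩]
  · simp
  have s0 := sub_nonneg.2 (Int.floor_le x)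
  have s1 := sub_nonneg.2 (Int.lt_floor_add_one x).le
  have t0 := sub_nonneg.2 (Int.floor_le y)
  have t1 := sub_nonneg.2 (Int.lt_floor_add_one y).le
  have a := consec (⌊x⌋ - ⌊y⌋)
  have b := consec (⌊x⌋ - ⌊y⌋ + 1)
  have c := consec (⌊x⌋ - ⌊y⌋ - 1)
  push_cast at a b c
  unfold g
  nlinarith [mul_nonneg (mul_nonneg s1 t1) a, mul_nonneg (mul_nonneg s0 t1) b,
    mul_nonneg (mul_nonneg s1 t0) c, mul_nonneg (mul_nonneg s0 t0) a]

noncomputable def p (x : ℝ) : ℝ := if x = 0 then 0 else 4 ^ Int.log 4 |x|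

noncomputable def h (x : ℝ) : ℝ := 4 * p x * |x| - 16 / 5 * p x ^ 2

lemma p_le (x : ℝ) : p x ≤ |x| ∧ |x| ≤ 4 * p x := by
  unfold p
  split_ifs with hx
  · simp [hx]
  · have := Int.zpow_log_le_self (b := 4) (r := |x|) (by norm_num) (abs_pos.2 hx)
    have h2 := (Int.lt_zpow_succ_log_self (b := 4) (by norm_num) |x|).le
    rw [zpow_add_one₀ (by norm_num)] at h2
    exact ⟨by exact_mod_cast this, by push_cast at h2; linarith⟩

lemma gap (i j : ℤ) : (0 : ℝ) ≤ (4 ^ i - 4 ^ j) * (4 ^ i - 4 * 4 ^ j) := by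
  have e : (4 : ℝ) * 4 ^ j = 4 ^ (j + 1) := by rw [zpow_add_one₀ (by norm_num)]; ring
  rw [e]
  rcases le_or_gt i j with h | h
  · exact mul_nonneg_of_nonpos_of_nonpos (sub_nonpos.2 (zpow_le_zpow_right₀ (by norm_num) h))
      (sub_nonpos.2 (zpow_le_zpow_right₀ (by norm_num) (by omega)))
  · exact mul_nonneg (sub_nonneg.2 (zpow_le_zpow_right₀ (by norm_num) h.le))
      (sub_nonneg.2 (zpow_le_zpow_right₀ (by norm_num) h))

lemma h_nonneg (x : ℝ) : 0 ≤ h x := by
  obtain ⟨h1, h2⟩ := p_le x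
  have := abs_nonneg x
  unfold h
  nlinarith

lemma h_sol : Solves 4 0 0 0 fun x => h x := by
  intro y
  rw [conj_eq h (y + 0) (h y / 4) (fun x => ?_) ?_]
  · rw [← EReal.coe_mul, mul_div_cancel₀ _ (by norm_num)]; simp
  swap
  · rw [add_zero]
    by_cases hx : x = 0
    · have := h_nonneg y
      simp [hx, h, p] at this ⊢
      positivity
    by_cases hy : y = 0
    · have := h_nonneg x
      simp only [hy, h, p] at this ⊢
      simpa using this
    obtain ⟨x0, x1⟩ := p_le x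
    obtain ⟨y0, y1⟩ := p_le y
    have hxy : y * x ≤ |y| * |x| := by rw [← abs_mul]; exact le_abs_self _
    have a := gap (Int.log 4 |y|) (Int.log 4 |x|)
    have b := gap (Int.log 4 |y|) (Int.log 4 |x| + 1)
    have c := gap (Int.log 4 |y| + 1) (Int.log 4 |x|)
    have pa : (0 : ℝ) < 4 ^ Int.log 4 |x| := by positivity
    have pb : (0 : ℝ) < 4 ^ Int.log 4 |y| := by positivity
    rw [zpow_add_one₀ (by norm_num)] at b c
    simp only [h, p, if_neg hx, if_neg hy] at *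
    generalize (4 : ℝ) ^ Int.log 4 |x| = u at *
    generalize (4 : ℝ) ^ Int.log 4 |y| = v at *
    rw [← sub_nonneg] at x0 x1 y0 y1
    have key : 0 ≤ (9 * u * v) * (16 * u * |x| - 64 / 5 * u ^ 2 + 4 * v * |y| - 16 / 5 * v ^ 2 -
        4 * (|y| * |x|)) := by
      nlinarith [mul_nonneg (mul_nonneg x1 y1) a, mul_nonneg (mul_nonneg x0 y1) b,
        mul_nonneg (mul_nonneg x1 y0) c, mul_nonneg (mul_nonneg x0 y0) a]
    have := nonneg_of_mul_nonneg_right key (by positivity)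
    linarith
  · by_cases hy : y = 0
    · exact ⟨0, by simp [hy, h, p]⟩
    have pb : (0 : ℝ) < 4 ^ Int.log 4 |y| := by positivity
    have e : ∀ x : ℝ, |x| = 4 ^ Int.log 4 |y| → h x = 4 / 5 * p y ^ 2 := by
      intro x hx
      have h0 : x ≠ 0 := by rintro rfl; simp at hx; linarith
      have := Int.log_zpow (R := ℝ) (b := 4) (by norm_num) (Int.log 4 |y|)
      push_cast at this
      simp only [h, p, if_neg h0, if_neg hy, hx, this]
      ring
    rcases lt_or_gt_of_ne hy with h1 | h1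
    · refine ⟨-4 ^ Int.log 4 |y|, ?_⟩
      rw [e _ (by rw [abs_neg, abs_of_pos pb]), h, p, if_neg hy]
      nth_rw 4 [abs_of_neg h1]
      ring
    · refine ⟨4 ^ Int.log 4 |y|, ?_⟩
      rw [e _ (by rw [abs_of_pos pb]), h, p, if_neg hy]
      nth_rw 4 [abs_of_pos h1]
      ring

theorem result : (∃ f, Solves 4 0 0 0 f ∧ f ≠ f0 4 0 0 0) ∧ (∃ f, Solves 1 1 0 0 f ∧ f ≠ f0 1 1 0 0) := by
  refine ⟨⟨_, h_sol, fun e => ?_⟩, _, g_sol, fun e => ?_⟩
  · have := EReal.coe_eq_coe_iff.1 (congrFun e 1)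
    rw [show (4 : ℝ) = 2 ^ 2 by norm_num, Real.sqrt_sq (by norm_num)] at this
    norm_num [h, p] at this
  · have := EReal.coe_eq_coe_iff.1 (congrFun e 0)
    norm_num [g] at this

end Pool.Agent.Results.MP_02ff8d_an.NonUnique
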